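import Pool.Agent.helper51.PC.Spec

/-! Row pc:LOG. -/

set_option autoImplicit false

universe u

namespace Pool.Agent.PC

section val

variable {K : Type u} [Field K] {v : K → ℤ}

theorem LOG_one (hv : DVal v) : v 1 = 0 := by
  have h := hv.mul 1 1 one_ne_zero one_ne_zero
  rw [mul_one] at h
  omega

theorem LOG_neg_one (hv : DVal v) : v (-1) = 0 := by
  have h := hv.mul (-1) (-1) (neg_ne_zero.mpr one_ne_zero) (neg_ne_zero.mpr one_ne_zero)
  rw [neg_one_mul, neg_neg, LOG_one hv] at h
  omega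

theorem LOG_mul (hv : DVal v) {r r' : ℤ} {x y : K} (hx : Ge v r x) (hy : Ge v r' y) :
    Ge v (r + r') (x * y) := by
  by_cases h1 : x = 0
  · exact Or.inl (by rw [h1, zero_mul])
  by_cases h2 : y = 0
  · exact Or.inl (by rw [h2, mul_zero])
  right
  rw [hv.mul x y h1 h2]
  have h3 := hx.resolve_left h1
  have h4 := hy.resolve_left h2
  omega

theorem LOG_add (hv : DVal v) {r : ℤ} {x y : K} (hx : Ge v r x) (hy : Ge v r y) :
    Ge v r (x + y) := by
  by_cases h1 : x = 0
  · rw [h1, zero_add]; exact hy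
  by_cases h2 : y = 0
  · rw [h2, add_zero]; exact hx
  by_cases h3 : x + y = 0
  · exact Or.inl h3
  right
  have h4 := hx.resolve_left h1
  have h5 := hy.resolve_left h2
  exact (le_min h4 h5).trans (hv.add x y h1 h2 h3)

theorem LOG_mono {r r' : ℤ} {x : K} (h : r' ≤ r) (hx : Ge v r x) : Ge v r' x :=
  hx.imp id (fun h' => h.trans h')

theorem LOG_neg (hv : DVal v) {r : ℤ} {x : K} (hx : Ge v r x) : Ge v r (-x) := by
  have h1 : Ge v 0 (-1 : K) := Or.inr (LOG_neg_one hv).ge
  have h2 := LOG_mul hv h1 hx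
  rw [zero_add, neg_one_mul] at h2
  exact h2

theorem LOG_sum (hv : DVal v) {ι : Type*} (S : Finset ι) {r : ℤ} {x : ι → K}
    (hx : ∀ i ∈ S, Ge v r (x i)) : Ge v r (∑ i ∈ S, x i) := by
  classical
  induction S using Finset.induction_on with
  | empty => exact Or.inl Finset.sum_empty
  | insert a S ha ih =>
    rw [Finset.sum_insert ha]
    exact LOG_add hv (hx a (Finset.mem_insert_self a S)) (ih fun i hi => hx i (Finset.mem_insert_of_mem hi))

theorem LOG_prod (hv : DVal v) {ι : Type*} (S : Finset ι) {r : ι → ℤ} {x : ι → K}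
    (hx : ∀ i ∈ S, Ge v (r i) (x i)) : Ge v (∑ i ∈ S, r i) (∏ i ∈ S, x i) := by
  classical
  induction S using Finset.induction_on with
  | empty => exact Or.inr (by rw [Finset.sum_empty, Finset.prod_empty, LOG_one hv])
  | insert a S ha ih =>
    rw [Finset.sum_insert ha, Finset.prod_insert ha]
    exact LOG_mul hv (hx a (Finset.mem_insert_self a S)) (ih fun i hi => hx i (Finset.mem_insert_of_mem hi))

theorem LOG_nat (hv : DVal v) (j : ℕ) : Ge v 0 (j : K) := by
  induction j with
  | zero => exact Or.inl Nat.cast_zero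
  | succ j ih =>
    rw [Nat.cast_succ]
    exact LOG_add hv ih (Or.inr (LOG_one hv).ge)

theorem LOG_inv (hv : DVal v) {x : K} (hx : x ≠ 0) : v x⁻¹ = - v x := by
  have h := hv.mul x x⁻¹ hx (inv_ne_zero hx)
  rw [mul_inv_cancel₀ hx, LOG_one hv] at h
  omega

theorem LOG_pow (hv : DVal v) {x : K} (hx : x ≠ 0) (j : ℕ) : v (x ^ j) = j * v x := by
  induction j with
  | zero => rw [pow_zero, LOG_one hv]; simp
  | succ j ih =>
    rw [pow_succ, hv.mul _ _ (pow_ne_zero j hx) hx, ih]
    push_cast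
    ring

end val

/-- the logarithmic derivatives of one element -/
theorem LOG_row (hEXP : EXP_stmt.{u}) (k K : Type u) [Field k] [Field K] [Algebra k K] (n p : ℕ) [Fact p.Prime]
    [CharP K p] (D : Fin n → Derivation k K K) (s : K →+* K) (v : K → ℤ) (hv : DVal v)
    (hs : ∀ y, s^[p] y = y) (a : K) (m : ℤ) (ha : s a = a + 1) (ha0 : a ≠ 0) (hva : v a = -m)
    (hNB : NB p s v a) (f : K) (hf : f = a ^ p - a) (hf0 : f ≠ 0) (hfv : Ge v (-(p : ℤ) * m) f)
    (hfs : s f = f) (y : K) (hy : y ≠ 0) :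
    ∃ (γ g : Option (Fin p) → K), (∀ t, g t ≠ 0 ∧ s (g t) = g t) ∧ g none = f ∧
      Ge v (-((p : ℤ) - 1) * m) (γ none) ∧ (∀ j, Ge v 0 (γ (some j))) ∧
      ∀ l, D l y / y = ∑ t, γ t * (D l (g t) / g t) := by
  classical
  obtain ⟨c, hcs, hc⟩ := hEXP K p s hs a ha y
  have hge : ∀ j, Ge v (v y) (c j * a ^ (j : ℕ)) :=
    hNB c hcs (v y) (Or.inr (by rw [← hc]))
  have hyi : Ge v (-v y) y⁻¹ := Or.inr (LOG_inv hv hy).ge
  have hai : Ge v m a⁻¹ := Or.inr (by rw [LOG_inv hv ha0, hva, neg_neg])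
  refine ⟨fun t => t.elim (-(∑ j : Fin p, ((j : ℕ) : K) * (c j * a ^ ((j : ℕ) - 1))) / y * f) (fun j => c j * a ^ (j : ℕ) / y),
    fun t => t.elim f (fun j => if c j = 0 then 1 else c j), ?_, rfl, ?_, ?_, ?_⟩
  · intro t
    rcases t with _ | j
    · exact ⟨hf0, hfs⟩
    · simp only [Option.elim]
      split_ifs with h
      · exact ⟨one_ne_zero, map_one s⟩
      · exact ⟨h, hcs j⟩
  · simp only [Option.elim]
    have e1 : -(∑ j : Fin p, ((j : ℕ) : K) * (c j * a ^ ((j : ℕ) - 1))) / y * f =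
        -(∑ j : Fin p, ((j : ℕ) : K) * ((c j * a ^ (j : ℕ)) * (a⁻¹ * y⁻¹))) * f := by
      rw [div_eq_mul_inv, neg_mul, Finset.sum_mul]
      congr 2
      refine Finset.sum_congr rfl (fun j _ => ?_)
      rcases Nat.eq_zero_or_pos (j : ℕ) with h0 | h0
      · rw [h0]; simp
      · obtain ⟨i, hi⟩ : ∃ i, (j : ℕ) = i + 1 := ⟨(j : ℕ) - 1, by omega⟩
        rw [hi, Nat.add_sub_cancel, pow_succ]
        field_simp
    rw [e1]
    have h2 : Ge v m (-(∑ j : Fin p, ((j : ℕ) : K) * ((c j * a ^ (j : ℕ)) * (a⁻¹ * y⁻¹)))) := by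
      refine LOG_neg hv (LOG_sum hv _ (fun j _ => ?_))
      have h3 := LOG_mul hv (LOG_nat hv (j : ℕ)) (LOG_mul hv (hge j) (LOG_mul hv hai hyi))
      exact LOG_mono (by omega) h3
    have h3 := LOG_mul hv h2 hfv
    have e2 : m + -(p : ℤ) * m = -((p : ℤ) - 1) * m := by ring
    rw [e2] at h3
    exact h3
  · intro j
    simp only [Option.elim]
    have h3 := LOG_mul hv (hge j) hyi
    rw [div_eq_mul_inv]
    exact LOG_mono (by omega) h3
  · intro l
    have hDa : D l a = - D l f := by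
      rw [hf, map_sub, Derivation.leibniz_pow, ← Nat.cast_smul_eq_nsmul K, CharP.cast_eq_zero, zero_smul]
      ring
    have hDy : D l y = ∑ j, (c j * (((j : ℕ) : K) * a ^ ((j : ℕ) - 1) * D l a) + a ^ (j : ℕ) * D l (c j)) := by
      conv_lhs => rw [hc]
      rw [map_sum]
      refine Finset.sum_congr rfl (fun j _ => ?_)
      rw [Derivation.leibniz, Derivation.leibniz_pow, smul_eq_mul, smul_eq_mul, nsmul_eq_mul, smul_eq_mul]
      ring
    rw [Fintype.sum_option]
    simp only [Option.elim]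
    rw [hDy, hDa, Finset.sum_add_distrib, add_div]
    congr 1
    · rw [Finset.sum_congr rfl (fun j _ => show c j * (((j : ℕ) : K) * a ^ ((j : ℕ) - 1) * -(D l f)) =
        (((j : ℕ) : K) * (c j * a ^ ((j : ℕ) - 1))) * (-(D l f)) by ring), ← Finset.sum_mul]
      field_simp
    · rw [Finset.sum_div]
      refine Finset.sum_congr rfl (fun j _ => ?_)
      split_ifs with h
      · rw [h, map_zero]; simp
      · field_simp

theorem LOG (hEXP : EXP_stmt.{u}) : LOG_stmt.{u} := by
  classical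
  intro k K _ _ _ n p _ _ D s v hv hs a m ha ha0 hm hva hNB y hy
  have hp2 : 2 ≤ p := (Fact.out : p.Prime).two_le
  set f : K := a ^ p - a with hf
  have hap : v (a ^ p) = -(p : ℤ) * m := by rw [LOG_pow hv ha0, hva]; ring
  have hf0 : f ≠ 0 := by
    intro h
    have h1 : a ^ p = a := by rw [hf, sub_eq_zero] at h; exact h
    rw [h1, hva] at hap
    have h2 : ((p : ℤ) - 1) * m = 0 := by linear_combination hap
    have h3 : (0 : ℤ) < ((p : ℤ) - 1) * m := mul_pos (by omega) hm
    omega
  have hfv : Ge v (-(p : ℤ) * m) f := by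
    rw [hf, sub_eq_add_neg]
    refine LOG_add hv (Or.inr hap.ge) (LOG_neg hv (Or.inr ?_))
    rw [hva]
    have : (0 : ℤ) ≤ ((p : ℤ) - 1) * m := mul_nonneg (by omega) hm.le
    linarith [this, show ((p : ℤ) - 1) * m = (p : ℤ) * m - m by ring]
  have hfs : s f = f := by
    rw [hf, map_sub, map_pow, ha, add_pow_char, one_pow]
    ring
  choose γ g hg hgn hγn hγs hrow using fun i => LOG_row hEXP k K n p D s v hv hs a m ha ha0 hva hNB f hf hf0 hfv
    hfs (y i) (hy i)
  -- the quotient of the Jacobian as a determinant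
  have hquot : ∀ z : Fin n → K, (∀ i, z i ≠ 0) → JJ D z / ∏ i, z i =
      Matrix.detRowAlternating (fun i j => D j (z i) / z i) := by
    intro z hz
    have h1 : (∏ i, z i) ≠ 0 := Finset.prod_ne_zero_iff.mpr (fun i _ => hz i)
    rw [div_eq_iff h1]
    have h2 := Matrix.det_mul_column z (Matrix.of fun i j => D j (z i) / z i)
    have h3 : (Matrix.of fun i j => z i * (Matrix.of fun i j => D j (z i) / z i) i j) =
        Matrix.of fun i j => D j (z i) := by
      ext i j
      simp only [Matrix.of_apply]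
      rw [mul_div_cancel₀ _ (hz i)]
    rw [h3] at h2
    rw [JJ, h2, mul_comm]
    rfl
  rw [hquot y hy]
  have hrows : (fun i j => D j (y i) / y i) = fun i => ∑ t : Option (Fin p), γ i t • (fun j => D j (g i t) / g i t) := by
    funext i j
    rw [hrow i j, Finset.sum_apply]
    rfl
  rw [hrows]
  have hexp : Matrix.detRowAlternating (fun i => ∑ t : Option (Fin p), γ i t • (fun j => D j (g i t) / g i t)) =
      ∑ τ : Fin n → Option (Fin p), (∏ i, γ i (τ i)) •
        Matrix.detRowAlternating (fun i j => D j (g i (τ i)) / g i (τ i)) := by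
    have h1 := (Matrix.detRowAlternating (n := Fin n) (R := K)).toMultilinearMap.map_sum
      (fun i (t : Option (Fin p)) => γ i t • (fun j => D j (g i t) / g i t))
    refine h1.trans (Finset.sum_congr rfl (fun τ _ => ?_))
    exact (Matrix.detRowAlternating (n := Fin n) (R := K)).toMultilinearMap.map_smul_univ
      (fun i => γ i (τ i)) (fun i j => D j (g i (τ i)) / g i (τ i))
  rw [hexp]
  refine AddSubgroup.sum_mem _ (fun τ _ => ?_)
  by_cases hτ : ∃ i i', i ≠ i' ∧ τ i = none ∧ τ i' = none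
  · obtain ⟨i, i', hne, h1, h2⟩ := hτ
    have h3 : Matrix.detRowAlternating (fun i j => D j (g i (τ i)) / g i (τ i)) = 0 := by
      refine AlternatingMap.map_eq_zero_of_eq _ _ (i := i) (j := i') ?_ hne
      funext j
      simp only [h1, h2, hgn]
    rw [h3, smul_zero]
    exact AddSubgroup.zero_mem _
  · refine AddSubgroup.subset_closure ⟨∏ i, γ i (τ i), ?_, Matrix.detRowAlternating (fun i j => D j (g i (τ i)) / g i (τ i)), ?_, rfl⟩
    · have h1 : Ge v (∑ i, (if τ i = none then (-((p : ℤ) - 1) * m) else 0)) (∏ i, γ i (τ i)) := by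
        refine LOG_prod hv _ (fun i _ => ?_)
        rcases h : τ i with _ | j
        · rw [if_pos rfl]; exact hγn i
        · rw [if_neg (by simp)]; exact hγs i j
      refine LOG_mono ?_ h1
      have hneg : -((p : ℤ) - 1) * m ≤ 0 := by
        have : (0 : ℤ) ≤ ((p : ℤ) - 1) * m := mul_nonneg (by omega) hm.le
        linarith [show -((p : ℤ) - 1) * m = -(((p : ℤ) - 1) * m) by ring]
      by_cases h2 : ∃ i, τ i = none
      · obtain ⟨i, hi⟩ := h2
        rw [Finset.sum_eq_single i]
        · rw [if_pos hi]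
        · intro b _ hb
          rw [if_neg (fun h => hτ ⟨b, i, hb, h, hi⟩)]
        · intro h; exact absurd (Finset.mem_univ i) h
      · rw [Finset.sum_eq_zero]
        · exact hneg
        · intro i _
          rw [if_neg (fun h => h2 ⟨i, h⟩)]
    · refine ⟨fun i => g i (τ i), fun i => hg i (τ i), ?_⟩
      exact (hquot (fun i => g i (τ i)) (fun i => (hg i (τ i)).1)).symm

end Pool.Agent.PC
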