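import Pool.Agent.helper64.PC.SpecE

/-!
# Row pc:PLY: polynomial bounds
-/

set_option autoImplicit false

namespace Pool.Agent.PC

open Pool.Agent.PB

theorem PLY_one (T a b : ℕ) (hT : 1 ≤ T) : T ^ a + b ≤ (b + 1) * T ^ a := by
  have h : 1 ≤ T ^ a := Nat.one_le_pow _ _ hT
  nlinarith

theorem PLY : PLY_stmt := by
  intro c d e
  set A : ℕ := (c + 1) * ((e + c + 1) ^ d + d) + 2 with hA
  set E : ℕ := c + e * d with hE
  refine ⟨A * 3 ^ E + A + 2 * E, ?_⟩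
  intro n m hm
  have hT : 1 ≤ n + 2 := by omega
  have h1 : (n + 2) ^ c + c ≤ (c + 1) * (n + 2) ^ c := PLY_one _ _ _ hT
  have h2 : m + c ≤ (e + c + 1) * (n + 2) ^ e := by
    have := PLY_one (n + 2) e (e + c) hT
    omega
  have h3 : (m + c) ^ d + d ≤ ((e + c + 1) ^ d + d) * (n + 2) ^ (e * d) := by
    have h4 : (m + c) ^ d ≤ (e + c + 1) ^ d * (n + 2) ^ (e * d) := by
      calc (m + c) ^ d ≤ ((e + c + 1) * (n + 2) ^ e) ^ d := Nat.pow_le_pow_left h2 d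
        _ = (e + c + 1) ^ d * (n + 2) ^ (e * d) := by rw [mul_pow, ← pow_mul]
    have h5 : 1 ≤ (n + 2) ^ (e * d) := Nat.one_le_pow _ _ hT
    nlinarith
  have h6 : ((n + 2) ^ c + c) * ((m + c) ^ d + d) + 2 ≤ A * (n + 2) ^ E := by
    have h7 : 1 ≤ (n + 2) ^ E := Nat.one_le_pow _ _ hT
    calc ((n + 2) ^ c + c) * ((m + c) ^ d + d) + 2
        ≤ ((c + 1) * (n + 2) ^ c) * (((e + c + 1) ^ d + d) * (n + 2) ^ (e * d)) + 2 * (n + 2) ^ E :=
          Nat.add_le_add (Nat.mul_le_mul h1 h3) (by omega)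
      _ = A * (n + 2) ^ E := by
          rw [hA, hE, pow_add]
          ring
  refine h6.trans ?_
  by_cases hn : 2 ≤ n
  · have h8 : (n + 2) ^ E ≤ n ^ (2 * E) := by
      calc (n + 2) ^ E ≤ (n ^ 2) ^ E := Nat.pow_le_pow_left (by nlinarith) E
        _ = n ^ (2 * E) := by rw [← pow_mul]
    have h9 : A ≤ n ^ A := by
      calc A ≤ 2 ^ A := Nat.lt_two_pow_self.le
        _ ≤ n ^ A := Nat.pow_le_pow_left hn A
    calc A * (n + 2) ^ E ≤ n ^ A * n ^ (2 * E) := Nat.mul_le_mul h9 h8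
      _ = n ^ (A + 2 * E) := by rw [← pow_add]
      _ ≤ n ^ (A * 3 ^ E + A + 2 * E) := Nat.pow_le_pow_right (by omega) (by omega)
      _ ≤ n ^ (A * 3 ^ E + A + 2 * E) + (A * 3 ^ E + A + 2 * E) := Nat.le_add_right _ _
  · have h10 : (n + 2) ^ E ≤ 3 ^ E := Nat.pow_le_pow_left (by omega) E
    calc A * (n + 2) ^ E ≤ A * 3 ^ E := Nat.mul_le_mul_left _ h10
      _ ≤ n ^ (A * 3 ^ E + A + 2 * E) + (A * 3 ^ E + A + 2 * E) := by omega

end Pool.Agent.PC
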